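import Pool.Agent.EAC.Final

/-!
# MP_5a62a1_an: the absolute complexity of Euler geodesics is not bounded by `C exp (t ‖v₀‖)`
-/

set_option autoImplicit false

noncomputable section

namespace Pool.Agent.Results.MP_5a62a1_an.ComplexityGrowth

open Pool.Agent.EAC
open scoped ENNReal

/-- For every integer `s ≥ 3` and every `L > 0` there are a compact planar domain `M` with analytic boundary and an Euler
geodesic `γ` of `D_μ^s(M)` starting at the identity such that `C(γ(t)) ≤ C exp (L t ‖γ'(0)‖)` fails for every `C`. -/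
theorem result (s : ℕ) (hs : 3 ≤ s) (L : ℝ) (hL : 0 < L) :
    ∃ M : Set ℂ, AnalyticDomain M ∧ ∃ (v : ℝ → ℂ → ℂ) (γ : ℝ → ℂ → ℂ), IsGeodesic M s v γ ∧
      ∀ C : ℝ, ∃ t ≥ 0,
        ENNReal.ofReal (C * Real.exp (L * t * (hsNorm M s (v 0)).toReal)) <
          absComplexity M s (γ t) :=
  result_main s hs L hL

end Pool.Agent.Results.MP_5a62a1_an.ComplexityGrowth
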